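import Pool.Agent.W191.WD.ProdA

set_option autoImplicit false
set_option linter.unusedVariables false
set_option maxHeartbeats 400000

universe u

open TensorProduct

namespace Pool.Agent.W191.WD.Prod

open Pool.Agent.W558

section mod

variable {k E1 E2 L : Type u} [Field k] [Field E1] [Field E2] [Field L]
  [Algebra k E1] [Algebra k E2] [Algebra k L] [Algebra E1 L] [Algebra E2 L]
  [IsScalarTower k E1 L] [IsScalarTower k E2 L] {T1 I1 T2 I2 : Type}

variable (L) in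
/-- the homogeneous coordinates -/
noncomputable def HH (M1 : LM (⊥ : Subalgebra k E1) ⊤ T1 I1)
    (M2 : LM (⊥ : Subalgebra k E2) ⊤ T2 I2) (t : T1 × T2) : L :=
  algebraMap E1 L (M1.H t.1) * algebraMap E2 L (M2.H t.2)

lemma HH_div (M1 : LM (⊥ : Subalgebra k E1) ⊤ T1 I1)
    (M2 : LM (⊥ : Subalgebra k E2) ⊤ T2 I2) (t t' : T1 × T2) :
    HH L M1 M2 t' / HH L M1 M2 t =
      algebraMap E1 L (M1.H t'.1 / M1.H t.1) * algebraMap E2 L (M2.H t'.2 / M2.H t.2) := by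
  unfold HH
  rw [mul_div_mul_comm, map_div₀, map_div₀]

lemma HH_pow (M1 : LM (⊥ : Subalgebra k E1) ⊤ T1 I1)
    (M2 : LM (⊥ : Subalgebra k E2) ⊤ T2 I2) (t t' : T1 × T2) (n : ℕ) (a : E1) (b : E2) :
    (HH L M1 M2 t' / HH L M1 M2 t) ^ n * (algebraMap E1 L a * algebraMap E2 L b) =
      algebraMap E1 L ((M1.H t'.1 / M1.H t.1) ^ n * a) *
        algebraMap E2 L ((M2.H t'.2 / M2.H t.2) ^ n * b) := by
  rw [HH_div, map_mul, map_mul, map_pow, map_pow]
  ring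

/-- the product of two models -/
noncomputable def prodLM (hinj : Inj L k E1 E2) (M1 : LM (⊥ : Subalgebra k E1) ⊤ T1 I1)
    (M2 : LM (⊥ : Subalgebra k E2) ⊤ T2 I2) :
    LM (⊥ : Subalgebra k L) ⊤ (T1 × T2) (I1 ⊕ I2) where
  A t := PA (M1.A t.1) (M2.A t.2)
  H := HH L M1 M2
  x t := Sum.elim (fun i => algebraMap E1 L (M1.x t.1 i)) fun i => algebraMap E2 L (M2.x t.2 i)
  sm t := by
    have h1 := M1.sm t.1
    have h2 := M2.sm t.2
    exact smooth hinj _ _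
  base t := bot_le
  H0 t := mul_ne_zero ((map_ne_zero _).2 (M1.H0 _)) ((map_ne_zero _).2 (M2.H0 _))
  HR t := Algebra.mem_top
  rt t t' := by
    rw [HH_div]
    exact mem2 (M1.rt _ _) (M2.rt _ _)
  gl t t' := by
    have hr : HH L M1 M2 t' / HH L M1 M2 t ∈ (PA (M1.A t.1) (M2.A t.2) : Subalgebra k L) := by
      rw [HH_div]
      exact mem2 (M1.rt _ _) (M2.rt _ _)
    refine PA_ind ?_ ?_
    · intro a ha b hb
      obtain ⟨n, hn⟩ := M1.gl t.1 t'.1 a ha
      obtain ⟨m, hm⟩ := M2.gl t.2 t'.2 b hb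
      refine ⟨n + m, ?_⟩
      rw [HH_pow]
      exact mem2 (M1.gl_mono (by omega) hn) (M2.gl_mono (by omega) hm)
    · rintro a b ⟨n, hn⟩ ⟨m, hm⟩
      refine ⟨n + m, ?_⟩
      have h1 : (HH L M1 M2 t' / HH L M1 M2 t) ^ (n + m) * (a + b) =
          (HH L M1 M2 t' / HH L M1 M2 t) ^ m * ((HH L M1 M2 t' / HH L M1 M2 t) ^ n * a) +
          (HH L M1 M2 t' / HH L M1 M2 t) ^ n * ((HH L M1 M2 t' / HH L M1 M2 t) ^ m * b) := by
        ring
      rw [h1]
      exact Subalgebra.add_mem _ (Subalgebra.mul_mem _ (Subalgebra.pow_mem _ hr _) hn)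
        (Subalgebra.mul_mem _ (Subalgebra.pow_mem _ hr _) hm)
  dn t f hf := ⟨0, Algebra.mem_top⟩
  cv V hV := by
    obtain ⟨t1, h1⟩ := M1.cv (V.comap (algebraMap E1 L)) (by
      intro a ha
      obtain ⟨c, rfl⟩ := Algebra.mem_bot.1 ha
      rw [ValuationSubring.mem_comap, ← IsScalarTower.algebraMap_apply]
      exact hV _ (Subalgebra.algebraMap_mem _ c))
    obtain ⟨t2, h2⟩ := M2.cv (V.comap (algebraMap E2 L)) (by
      intro a ha
      obtain ⟨c, rfl⟩ := Algebra.mem_bot.1 ha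
      rw [ValuationSubring.mem_comap, ← IsScalarTower.algebraMap_apply]
      exact hV _ (Subalgebra.algebraMap_mem _ c))
    refine ⟨(t1, t2), PA_ind ?_ ?_⟩
    · intro a ha b hb
      exact V.mul_mem _ _ (h1 a ha) (h2 b hb)
    · intro a b ha hb
      exact V.add_mem _ _ ha hb
  xA t i := by
    rcases i with i | i
    · exact meml (M1.xA _ _)
    · exact memr (M2.xA _ _)
  x0 t i := by
    rcases i with i | i
    · exact (map_ne_zero _).2 (M1.x0 _ _)
    · exact (map_ne_zero _).2 (M2.x0 _ _)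
  gi t t' i := by
    rcases i with i | i
    · obtain ⟨n, hn⟩ := M1.gi t.1 t'.1 i
      refine ⟨n, ?_⟩
      change (HH L M1 M2 t' / HH L M1 M2 t) ^ n *
        (algebraMap E1 L (M1.x t'.1 i) / algebraMap E1 L (M1.x t.1 i)) ∈ _
      rw [← map_div₀]
      have h2 := HH_pow (L := L) M1 M2 t t' n (M1.x t'.1 i / M1.x t.1 i) 1
      rw [map_one, mul_one, mul_one] at h2
      rw [h2]
      exact mem2 hn (Subalgebra.pow_mem _ (M2.rt _ _) _)
    · obtain ⟨n, hn⟩ := M2.gi t.2 t'.2 i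
      refine ⟨n, ?_⟩
      change (HH L M1 M2 t' / HH L M1 M2 t) ^ n *
        (algebraMap E2 L (M2.x t'.2 i) / algebraMap E2 L (M2.x t.2 i)) ∈ _
      rw [← map_div₀]
      have h2 := HH_pow (L := L) M1 M2 t t' n 1 (M2.x t'.2 i / M2.x t.2 i)
      rw [map_one, one_mul, mul_one] at h2
      rw [h2]
      exact mem2 (Subalgebra.pow_mem _ (M1.rt _ _) _) hn
  snc t := by
    intro κ _ _ φ i hi h0
    rcases i with i | i
    · obtain ⟨D1, hD1, hD1'⟩ := M1.snc t.1 κ (φ.comp (i1 _ _)) i (M1.xA _ _) h0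
      obtain ⟨D, hD, hD'⟩ := ext_tv hinj φ D1 (TV.zero _)
      refine ⟨D, (hD ⟨_, M1.xA _ i⟩).trans hD1, ?_⟩
      rintro (j | j) hj hji hj0
      · exact (hD ⟨_, M1.xA _ j⟩).trans (hD1' j (M1.xA _ _) (fun h => hji (by rw [h])) hj0)
      · exact (hD' ⟨_, M2.xA _ j⟩).trans (TV.zero_D _)
    · obtain ⟨D2, hD2, hD2'⟩ := M2.snc t.2 κ (φ.comp (i2 _ _)) i (M2.xA _ _) h0
      obtain ⟨D, hD, hD'⟩ := ext_tv hinj φ (TV.zero _) D2
      refine ⟨D, (hD' ⟨_, M2.xA _ i⟩).trans hD2, ?_⟩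
      rintro (j | j) hj hji hj0
      · exact (hD ⟨_, M1.xA _ j⟩).trans (TV.zero_D _)
      · exact (hD' ⟨_, M2.xA _ j⟩).trans (hD2' j (M2.xA _ _) (fun h => hji (by rw [h])) hj0)

variable [Fintype I1] [Fintype I2]

lemma prod_monl (hinj : Inj L k E1 E2) (M1 : LM (⊥ : Subalgebra k E1) ⊤ T1 I1)
    (M2 : LM (⊥ : Subalgebra k E2) ⊤ T2 I2) (t : T1 × T2) (n : I1 → ℤ) :
    ∏ i, (prodLM hinj M1 M2).x t i ^ (Sum.elim n (0 : I2 → ℤ)) i =
      algebraMap E1 L (∏ i, M1.x t.1 i ^ n i) := by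
  rw [Fintype.prod_sum_type, map_prod]
  have h1 : ∏ i : I2, (prodLM hinj M1 M2).x t (Sum.inr i) ^ (Sum.elim n (0 : I2 → ℤ)) (Sum.inr i)
      = 1 := Finset.prod_eq_one fun i _ => by simp
  rw [h1, mul_one]
  refine Finset.prod_congr rfl fun i _ => ?_
  rw [map_zpow₀]
  rfl

lemma prod_monr (hinj : Inj L k E1 E2) (M1 : LM (⊥ : Subalgebra k E1) ⊤ T1 I1)
    (M2 : LM (⊥ : Subalgebra k E2) ⊤ T2 I2) (t : T1 × T2) (n : I2 → ℤ) :
    ∏ i, (prodLM hinj M1 M2).x t i ^ (Sum.elim (0 : I1 → ℤ) n) i =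
      algebraMap E2 L (∏ i, M2.x t.2 i ^ n i) := by
  rw [Fintype.prod_sum_type, map_prod]
  have h1 : ∏ i : I1, (prodLM hinj M1 M2).x t (Sum.inl i) ^ (Sum.elim (0 : I1 → ℤ) n) (Sum.inl i)
      = 1 := Finset.prod_eq_one fun i _ => by simp
  rw [h1, one_mul]
  refine Finset.prod_congr rfl fun i _ => ?_
  rw [map_zpow₀]
  rfl

/-- extension of logarithmic tangent vectors -/
lemma ext_lt (hinj : Inj L k E1 E2) (M1 : LM (⊥ : Subalgebra k E1) ⊤ T1 I1)
    (M2 : LM (⊥ : Subalgebra k E2) ⊤ T2 I2) (t : T1 × T2) (κ : Type u) [Field κ] [Algebra k κ]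
    (φ : (prodLM hinj M1 M2).A t →ₐ[k] κ)
    (v1 : LT (φ.comp (i1 (M1.A t.1) (M2.A t.2))) (M1.x t.1))
    (v2 : LT (φ.comp (i2 (M1.A t.1) (M2.A t.2))) (M2.x t.2)) :
    ∃ v : LT φ ((prodLM hinj M1 M2).x t),
      (∀ (n1 : I1 → ℤ) (h : E1) (hh : h ∈ M1.A t.1)
        (hh' : algebraMap E1 L h ∈ (prodLM hinj M1 M2).A t),
        om v (Sum.elim n1 (0 : I2 → ℤ)) hh' = om v1 n1 hh) ∧
      (∀ (n2 : I2 → ℤ) (h : E2) (hh : h ∈ M2.A t.2)
        (hh' : algebraMap E2 L h ∈ (prodLM hinj M1 M2).A t),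
        om v (Sum.elim (0 : I1 → ℤ) n2) hh' = om v2 n2 hh) := by
  obtain ⟨D, hD, hD'⟩ := ext_tv hinj φ v1.D v2.D
  have hx : ∀ i (h : (prodLM hinj M1 M2).x t i ∈ (prodLM hinj M1 M2).A t),
      D.D ⟨(prodLM hinj M1 M2).x t i, h⟩ =
        φ ⟨(prodLM hinj M1 M2).x t i, h⟩ * (Sum.elim v1.e v2.e) i := by
    rintro (i | i) h
    · exact (hD ⟨_, M1.xA _ i⟩).trans (v1.hx i (M1.xA _ _))
    · exact (hD' ⟨_, M2.xA _ i⟩).trans (v2.hx i (M2.xA _ _))
  refine ⟨⟨D, Sum.elim v1.e v2.e, hx⟩, ?_, ?_⟩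
  · intro n1 h hh hh'
    unfold om
    have h1 : D.D ⟨algebraMap E1 L h, hh'⟩ = v1.D.D ⟨h, hh⟩ := hD ⟨h, hh⟩
    have h2 : φ ⟨algebraMap E1 L h, hh'⟩ = (φ.comp (i1 (M1.A t.1) (M2.A t.2))) ⟨h, hh⟩ := rfl
    rw [h2, Fintype.sum_sum_type]
    simp only [Sum.elim_inl, Sum.elim_inr, Pi.zero_apply, Int.cast_zero, zero_mul,
      Finset.sum_const_zero, add_zero]
    exact congrArg (fun z => z + _) h1
  · intro n2 h hh hh'
    unfold om
    have h1 : D.D ⟨algebraMap E2 L h, hh'⟩ = v2.D.D ⟨h, hh⟩ := hD' ⟨h, hh⟩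
    have h2 : φ ⟨algebraMap E2 L h, hh'⟩ = (φ.comp (i2 (M1.A t.1) (M2.A t.2))) ⟨h, hh⟩ := rfl
    rw [h2, Fintype.sum_sum_type]
    simp only [Sum.elim_inl, Sum.elim_inr, Pi.zero_apply, Int.cast_zero, zero_mul,
      Finset.sum_const_zero, zero_add]
    exact congrArg (fun z => z + _) h1

/-- the zero logarithmic tangent vector -/
def zeroLT {k K : Type u} [Field k] [Field K] [Algebra k K] {A : Subalgebra k K} {κ : Type u}
    [Field κ] [Algebra k κ] (φ : A →ₐ[k] κ) {I : Type} (x : I → K) : LT φ x where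
  D := TV.zero φ
  e := 0
  hx := by intro i h; simp

lemma om_zero {k K : Type u} [Field k] [Field K] [Algebra k K] {A : Subalgebra k K} {κ : Type u}
    [Field κ] [Algebra k κ] (φ : A →ₐ[k] κ) {I : Type} [Fintype I] (x : I → K) (n : I → ℤ)
    {h : K} (hh : h ∈ A) : om (zeroLT φ x) n hh = 0 := by
  unfold om zeroLT
  simp

lemma frc (hinj : Inj L k E1 E2)
    (hfr : ∀ x : L, ∃ a b : E1 ⊗[k] E2, b ≠ 0 ∧
      x * Algebra.TensorProduct.productMap (IsScalarTower.toAlgHom k E1 L)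
        (IsScalarTower.toAlgHom k E2 L) b =
      Algebra.TensorProduct.productMap (IsScalarTower.toAlgHom k E1 L)
        (IsScalarTower.toAlgHom k E2 L) a)
    (M1 : LM (⊥ : Subalgebra k E1) ⊤ T1 I1)
    (M2 : LM (⊥ : Subalgebra k E2) ⊤ T2 I2) (f1 : Frc M1) (f2 : Frc M2) :
    Frc (prodLM hinj M1 M2) := by
  intro t x
  have key : ∀ z : E1 ⊗[k] E2, ∃ c ∈ M1.A t.1, ∃ d ∈ M2.A t.2, c ≠ 0 ∧ d ≠ 0 ∧
      Algebra.TensorProduct.productMap (IsScalarTower.toAlgHom k E1 L)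
        (IsScalarTower.toAlgHom k E2 L) z * (algebraMap E1 L c * algebraMap E2 L d) ∈
        (PA (M1.A t.1) (M2.A t.2) : Subalgebra k L) := by
    intro z
    induction z using TensorProduct.induction_on with
    | zero =>
      refine ⟨1, Subalgebra.one_mem _, 1, Subalgebra.one_mem _, one_ne_zero, one_ne_zero, ?_⟩
      rw [map_zero, zero_mul]
      exact Subalgebra.zero_mem _
    | tmul a b =>
      obtain ⟨a', ha', c, hc, hc0, hac⟩ := f1 t.1 a
      obtain ⟨b', hb', d, hd, hd0, hbd⟩ := f2 t.2 b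
      refine ⟨c, hc, d, hd, hc0, hd0, ?_⟩
      have h1 : Algebra.TensorProduct.productMap (IsScalarTower.toAlgHom k E1 L)
        (IsScalarTower.toAlgHom k E2 L) (a ⊗ₜ b) = algebraMap E1 L a * algebraMap E2 L b := rfl
      have h2 : a * c = a' := by rw [hac]; field_simp
      have h3 : b * d = b' := by rw [hbd]; field_simp
      rw [h1, mul_mul_mul_comm, ← map_mul, ← map_mul, h2, h3]
      exact mem2 ha' hb'
    | add y z hy hz =>
      obtain ⟨c, hc, d, hd, hc0, hd0, h⟩ := hy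
      obtain ⟨c', hc', d', hd', hc0', hd0', h'⟩ := hz
      refine ⟨c * c', Subalgebra.mul_mem _ hc hc', d * d', Subalgebra.mul_mem _ hd hd',
        mul_ne_zero hc0 hc0', mul_ne_zero hd0 hd0', ?_⟩
      have e : ∀ Y Z C C' D D' : L, (Y + Z) * (C * C' * (D * D')) =
        Y * (C * D) * (C' * D') + Z * (C' * D') * (C * D) := by intros; ring
      rw [map_add, map_mul, map_mul, e]
      exact Subalgebra.add_mem _ (Subalgebra.mul_mem _ h (mem2 hc' hd'))
        (Subalgebra.mul_mem _ h' (mem2 hc hd))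
  obtain ⟨a, b, hb, hab⟩ := hfr x
  obtain ⟨c, hc, d, hd, hc0, hd0, h⟩ := key a
  obtain ⟨c', hc', d', hd', hc0', hd0', h'⟩ := key b
  have hb0 : Algebra.TensorProduct.productMap (IsScalarTower.toAlgHom k E1 L)
        (IsScalarTower.toAlgHom k E2 L) b ≠ 0 := by
    intro h0
    exact hb (hinj (by rw [h0, map_zero]))
  have hcd : algebraMap E1 L c * algebraMap E2 L d ≠ 0 :=
    mul_ne_zero ((map_ne_zero _).2 hc0) ((map_ne_zero _).2 hd0)
  have hcd' : algebraMap E1 L c' * algebraMap E2 L d' ≠ 0 :=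
    mul_ne_zero ((map_ne_zero _).2 hc0') ((map_ne_zero _).2 hd0')
  refine ⟨_, Subalgebra.mul_mem _ h (mem2 hc' hd'), _, Subalgebra.mul_mem _ h' (mem2 hc hd),
    mul_ne_zero (mul_ne_zero hb0 hcd') hcd, ?_⟩
  rw [eq_mul_inv_iff_mul_eq₀ (mul_ne_zero (mul_ne_zero hb0 hcd') hcd), ← hab]
  ring

end mod

theorem main : WD_prod.{u} := by
  intro p k E1 E2 L _ _ _ _ _ _ _ _ _ _ _ hinj0 hfr T1 I1 T2 I2 ι1 ι2 G1 G2 _ _ _ _ M1 M2
    f1 n1 a1 h1 f2 n2 a2 h2 g1 Γ1 g2 Γ2 hN1 hN2 hF1 hF2 hR1 hR2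
  have hinj : Inj L k E1 E2 := hinj0
  refine ⟨T1 × T2, I1 ⊕ I2, inferInstance, inferInstance, prodLM hinj M1 M2,
    Sum.elim (fun j => Sum.elim (n1 j) 0) (fun j => Sum.elim 0 (n2 j)),
    fun t => Sum.elim (fun j => algebraMap E1 L (a1 t.1 j)) (fun j => algebraMap E2 L (a2 t.2 j)),
    fun t => Sum.elim (fun j => algebraMap E1 L (h1 t.1 j)) (fun j => algebraMap E2 L (h2 t.2 j)),
    Sum.elim (fun b => Sum.elim (Γ1 b) 0) (fun b => Sum.elim 0 (Γ2 b)), ?_, ?_,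
    frc hinj hfr M1 M2 hR1 hR2⟩
  · have hA : ∀ (t : T1 × T2) (j : ι1 ⊕ ι2), (Sum.elim (fun j => algebraMap E1 L (h1 t.1 j))
        (fun j => algebraMap E2 L (h2 t.2 j)) j : L) ∈ (prodLM hinj M1 M2).A t := by
      rintro t (j | j)
      · exact meml (hN1.hA _ _)
      · exact memr (hN2.hA _ _)
    refine ⟨hA, ?_, ?_⟩
    · rintro t (j | j)
      · simp only [Sum.elim_inl]
        rw [prod_monl, ← map_pow, ← map_mul, ← map_add, ← hN1.eq]
      · simp only [Sum.elim_inr]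
        rw [prod_monr, ← map_pow, ← map_mul, ← map_add, ← hN2.eq]
    · rintro t κ _ _ φ (j | j)
      · obtain ⟨v1, hv1, hv1'⟩ := hN1.ln t.1 κ (φ.comp (i1 (M1.A t.1) (M2.A t.2))) j
        obtain ⟨v, hv, hv'⟩ := ext_lt hinj M1 M2 t κ φ v1 (zeroLT _ _)
        refine ⟨v, ?_, ?_⟩
        · have := hv (n1 j) (h1 t.1 j) (hN1.hA _ _) (hA t (Sum.inl j))
          simp only [Sum.elim_inl] at this ⊢
          rw [this]
          exact hv1
        · rintro (l | l) hl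
          · have := hv (n1 l) (h1 t.1 l) (hN1.hA _ _) (hA t (Sum.inl l))
            simp only [Sum.elim_inl] at this ⊢
            rw [this]
            exact hv1' l (fun h => hl (by rw [h]))
          · have := hv' (n2 l) (h2 t.2 l) (hN2.hA _ _) (hA t (Sum.inr l))
            simp only [Sum.elim_inr] at this ⊢
            rw [this]
            exact om_zero _ _ _ _
      · obtain ⟨v2, hv2, hv2'⟩ := hN2.ln t.2 κ (φ.comp (i2 (M1.A t.1) (M2.A t.2))) j
        obtain ⟨v, hv, hv'⟩ := ext_lt hinj M1 M2 t κ φ (zeroLT _ _) v2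
        refine ⟨v, ?_, ?_⟩
        · have := hv' (n2 j) (h2 t.2 j) (hN2.hA _ _) (hA t (Sum.inr j))
          simp only [Sum.elim_inr] at this ⊢
          rw [this]
          exact hv2
        · rintro (l | l) hl
          · have := hv (n1 l) (h1 t.1 l) (hN1.hA _ _) (hA t (Sum.inl l))
            simp only [Sum.elim_inl] at this ⊢
            rw [this]
            exact om_zero _ _ _ _
          · have := hv' (n2 l) (h2 t.2 l) (hN2.hA _ _) (hA t (Sum.inr l))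
            simp only [Sum.elim_inr] at this ⊢
            rw [this]
            exact hv2' l (fun h => hl (by rw [h]))
  · rintro (b | b) t
    · obtain ⟨w, hw0, hw, hw', e⟩ := hF1 b t.1
      refine ⟨algebraMap E1 L w, (map_ne_zero _).2 hw0, meml hw, ?_, ?_⟩
      · rw [← map_inv₀]
        exact meml hw'
      · simp only [Sum.elim_inl]
        rw [prod_monl, ← map_mul, ← e]
    · obtain ⟨w, hw0, hw, hw', e⟩ := hF2 b t.2
      refine ⟨algebraMap E2 L w, (map_ne_zero _).2 hw0, memr hw, ?_, ?_⟩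
      · rw [← map_inv₀]
        exact memr hw'
      · simp only [Sum.elim_inr]
        rw [prod_monr, ← map_mul, ← e]

end Pool.Agent.W191.WD.Prod
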