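import Pool.Agent.W558.WD.Stms

set_option autoImplicit false
set_option linter.unusedVariables false
set_option maxHeartbeats 400000

universe u

open TensorProduct

namespace Pool.Agent.W191.WD.Prod

open Pool.Agent.W558

section alg

variable {k E1 E2 L : Type u} [Field k] [Field E1] [Field E2] [Field L]
  [Algebra k E1] [Algebra k E2] [Algebra k L] [Algebra E1 L] [Algebra E2 L]
  [IsScalarTower k E1 L] [IsScalarTower k E2 L]

/-- the map of the tensor product of two subalgebras -/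
noncomputable def pm (A1 : Subalgebra k E1) (A2 : Subalgebra k E2) : A1 ⊗[k] A2 →ₐ[k] L :=
  Algebra.TensorProduct.productMap ((IsScalarTower.toAlgHom k E1 L).comp A1.val)
    ((IsScalarTower.toAlgHom k E2 L).comp A2.val)

/-- the subalgebra generated by two subalgebras -/
noncomputable def PA (A1 : Subalgebra k E1) (A2 : Subalgebra k E2) : Subalgebra k L :=
  (pm A1 A2).range

variable {A1 : Subalgebra k E1} {A2 : Subalgebra k E2}

lemma mem2 {a : E1} (ha : a ∈ A1) {b : E2} (hb : b ∈ A2) :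
    algebraMap E1 L a * algebraMap E2 L b ∈ (PA A1 A2 : Subalgebra k L) :=
  ⟨(⟨a, ha⟩ : A1) ⊗ₜ (⟨b, hb⟩ : A2), rfl⟩

lemma meml {a : E1} (ha : a ∈ A1) : algebraMap E1 L a ∈ (PA A1 A2 : Subalgebra k L) := by
  have := mem2 (L := L) ha A2.one_mem
  rwa [map_one, mul_one] at this

lemma memr {b : E2} (hb : b ∈ A2) : algebraMap E2 L b ∈ (PA A1 A2 : Subalgebra k L) := by
  have := mem2 (L := L) A1.one_mem hb
  rwa [map_one, one_mul] at this

lemma PA_ind {P : L → Prop}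
    (h : ∀ a ∈ A1, ∀ b ∈ A2, P (algebraMap E1 L a * algebraMap E2 L b))
    (hadd : ∀ x y, P x → P y → P (x + y)) : ∀ x ∈ (PA A1 A2 : Subalgebra k L), P x := by
  rintro x ⟨z, rfl⟩
  change P (pm A1 A2 z)
  induction z using TensorProduct.induction_on with
  | zero =>
    rw [map_zero]
    have := h 0 A1.zero_mem 0 A2.zero_mem
    rwa [map_zero, zero_mul] at this
  | tmul a b => exact h a a.2 b b.2
  | add x y hx hy => rw [map_add]; exact hadd _ _ hx hy

variable (L) in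
/-- the hypothesis -/
def Inj (k E1 E2 : Type u) [Field k] [Field E1] [Field E2] [Algebra k E1] [Algebra k E2]
    [Algebra k L] [Algebra E1 L] [Algebra E2 L] [IsScalarTower k E1 L] [IsScalarTower k E2 L] :
    Prop := Function.Injective (Algebra.TensorProduct.productMap (IsScalarTower.toAlgHom k E1 L)
    (IsScalarTower.toAlgHom k E2 L))

lemma pm_inj (hinj : Inj L k E1 E2) (A1 : Subalgebra k E1) (A2 : Subalgebra k E2) :
    Function.Injective (pm A1 A2 : A1 ⊗[k] A2 →ₐ[k] L) := by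
  have h1 : Function.Injective (TensorProduct.map A1.val.toLinearMap A2.val.toLinearMap) :=
    TensorProduct.map_injective_of_flat_flat _ _ Subtype.val_injective Subtype.val_injective
  have h2 : ∀ z : A1 ⊗[k] A2, (pm A1 A2 : A1 ⊗[k] A2 →ₐ[k] L) z =
      Algebra.TensorProduct.productMap (IsScalarTower.toAlgHom k E1 L)
        (IsScalarTower.toAlgHom k E2 L)
        (TensorProduct.map A1.val.toLinearMap A2.val.toLinearMap z) := by
    intro z
    induction z using TensorProduct.induction_on with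
    | zero => rw [map_zero, map_zero, map_zero]
    | tmul a b => rfl
    | add x y hx hy => rw [map_add, map_add, map_add, hx, hy]
  intro x y hxy
  rw [h2, h2] at hxy
  exact h1 (hinj hxy)

lemma smooth (hinj : Inj L k E1 E2) (A1 : Subalgebra k E1) (A2 : Subalgebra k E2)
    [Algebra.Smooth k A1] [Algebra.Smooth k A2] :
    Algebra.Smooth k (PA A1 A2 : Subalgebra k L) := by
  have h1 : Algebra.Smooth A1 (A1 ⊗[k] A2) := inferInstance
  have h2 : Algebra.Smooth k (A1 ⊗[k] A2) := Algebra.Smooth.comp k A1 (A1 ⊗[k] A2)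
  exact Algebra.Smooth.of_equiv (AlgEquiv.ofInjective (pm A1 A2 : A1 ⊗[k] A2 →ₐ[k] L)
    (pm_inj hinj A1 A2))

/-- the inclusion of the first factor -/
noncomputable def i1 (A1 : Subalgebra k E1) (A2 : Subalgebra k E2) :
    A1 →ₐ[k] (PA A1 A2 : Subalgebra k L) :=
  ((IsScalarTower.toAlgHom k E1 L).comp A1.val).codRestrict (PA A1 A2) fun a => meml a.2

/-- the inclusion of the second factor -/
noncomputable def i2 (A1 : Subalgebra k E1) (A2 : Subalgebra k E2) :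
    A2 →ₐ[k] (PA A1 A2 : Subalgebra k L) :=
  ((IsScalarTower.toAlgHom k E2 L).comp A2.val).codRestrict (PA A1 A2) fun a => memr a.2

lemma ex_hom (hinj : Inj L k E1 E2) {B : Type u} [CommRing B] [Algebra k B]
    (f1 : A1 →ₐ[k] B) (f2 : A2 →ₐ[k] B) :
    ∃ Θ : (PA A1 A2 : Subalgebra k L) →ₐ[k] B, (∀ a : A1, Θ (i1 A1 A2 a) = f1 a) ∧
      (∀ b : A2, Θ (i2 A1 A2 b) = f2 b) := by
  let e : A1 ⊗[k] A2 ≃ₐ[k] (PA A1 A2 : Subalgebra k L) :=
    AlgEquiv.ofInjective (pm A1 A2 : A1 ⊗[k] A2 →ₐ[k] L) (pm_inj hinj A1 A2)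
  have he : ∀ (a : A1) (b : A2), e (a ⊗ₜ b) = i1 A1 A2 a * i2 A1 A2 b := fun a b =>
    Subtype.ext rfl
  refine ⟨(Algebra.TensorProduct.productMap f1 f2).comp (e.symm : _ →ₐ[k] _), ?_, ?_⟩
  · intro a
    have h1 : i1 A1 A2 a = e (a ⊗ₜ 1) := by rw [he, map_one, mul_one]
    rw [h1]
    change (Algebra.TensorProduct.productMap f1 f2) (e.symm (e (a ⊗ₜ 1))) = _
    rw [e.symm_apply_apply, Algebra.TensorProduct.productMap_apply_tmul, map_one, mul_one]
  · intro b
    have h1 : i2 A1 A2 b = e (1 ⊗ₜ b) := by rw [he, map_one, one_mul]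
    rw [h1]
    change (Algebra.TensorProduct.productMap f1 f2) (e.symm (e (1 ⊗ₜ b))) = _
    rw [e.symm_apply_apply, Algebra.TensorProduct.productMap_apply_tmul, map_one, one_mul]

lemma hom_ext' {B : Type u} [CommRing B] [Algebra k B]
    (f g : (PA A1 A2 : Subalgebra k L) →ₐ[k] B) (h1 : ∀ a : A1, f (i1 A1 A2 a) = g (i1 A1 A2 a))
    (h2 : ∀ b : A2, f (i2 A1 A2 b) = g (i2 A1 A2 b)) : ∀ x, f x = g x := by
  have key : ∀ x ∈ (PA A1 A2 : Subalgebra k L), ∃ hx : x ∈ (PA A1 A2 : Subalgebra k L),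
      f ⟨x, hx⟩ = g ⟨x, hx⟩ := by
    refine PA_ind (A1 := A1) (A2 := A2)
      (P := fun x => ∃ hx : x ∈ (PA A1 A2 : Subalgebra k L), f ⟨x, hx⟩ = g ⟨x, hx⟩) ?_ ?_
    · intro a ha b hb
      refine ⟨mem2 ha hb, ?_⟩
      have e : (⟨_, mem2 ha hb⟩ : (PA A1 A2 : Subalgebra k L)) =
        i1 A1 A2 ⟨a, ha⟩ * i2 A1 A2 ⟨b, hb⟩ := Subtype.ext rfl
      rw [e, map_mul, map_mul, h1, h2]
    · rintro x y ⟨hx, hx'⟩ ⟨hy, hy'⟩
      refine ⟨Subalgebra.add_mem _ hx hy, ?_⟩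
      have e : (⟨x + y, Subalgebra.add_mem _ hx hy⟩ : (PA A1 A2 : Subalgebra k L)) =
        ⟨x, hx⟩ + ⟨y, hy⟩ := Subtype.ext rfl
      rw [e, map_add, map_add, hx', hy']
  intro x
  obtain ⟨_, h⟩ := key x x.2
  exact h

lemma ext_tv (hinj : Inj L k E1 E2) {κ : Type u} [Field κ] [Algebra k κ]
    (φ : (PA A1 A2 : Subalgebra k L) →ₐ[k] κ) (D1 : TV (φ.comp (i1 A1 A2)))
    (D2 : TV (φ.comp (i2 A1 A2))) :
    ∃ D : TV φ, (∀ a : A1, D.D (i1 A1 A2 a) = D1.D a) ∧
      (∀ a : A2, D.D (i2 A1 A2 a) = D2.D a) := by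
  obtain ⟨Θ, hΘ1, hΘ2⟩ := ex_hom hinj D1.dual D2.dual
  have hfst : ∀ x, (Θ x).fst = φ x := by
    refine hom_ext' ((TrivSqZeroExt.fstHom k κ κ).comp Θ) φ ?_ ?_
    · intro a
      change (Θ (i1 A1 A2 a)).fst = _
      rw [hΘ1, TV.dual_fst]
      rfl
    · intro a
      change (Θ (i2 A1 A2 a)).fst = _
      rw [hΘ2, TV.dual_fst]
      rfl
  refine ⟨TV.ofDual φ Θ hfst, ?_, ?_⟩
  · intro a
    rw [TV.ofDual_D, hΘ1, TV.dual_snd]
  · intro b
    rw [TV.ofDual_D, hΘ2, TV.dual_snd]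

end alg

end Pool.Agent.W191.WD.Prod
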